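import Pool.Agent.TH61.PCF.Fin

/-!
# Coordinates at a fixed point that is not superattracting
-/

set_option autoImplicit false

namespace Pool.Agent.TH61.PCH

open Polynomial Filter Topology Pool.Agent.TH61.PCF

/-- a homogeneous self-map of the plane near a fixed point with multiplier different from zero -/
structure CoordB (K : Type) [Field K] where
  Ψ : (Fin 2 → K) → (Fin 2 → K)
  D : ℕ
  γ : Fin 2 → K
  w : Fin 2 → K
  a' : K[X]
  b' : K[X]
  hind : γ 0 * w 1 - γ 1 * w 0 ≠ 0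
  hom : ∀ (l : K) (v : Fin 2 → K), Ψ (l • v) = l ^ D • Ψ v
  h2 : ∀ τ : K, Ψ (γ + τ • w) = b'.eval τ • γ + (τ * a'.eval τ) • w
  ha' : a'.eval 0 ≠ 0
  hb' : b'.eval 0 ≠ 0

section abs

variable {K : Type} [Field K] (C : CoordB K)

/-- the affine orbit -/
noncomputable def CoordB.S (τ : K) : ℕ → K
  | 0 => τ
  | n + 1 => (CoordB.S τ n) * C.a'.eval (CoordB.S τ n) / C.b'.eval (CoordB.S τ n)

theorem CoordB.orbit {τ : K} (hS : ∀ n, C.b'.eval (C.S τ n) ≠ 0) (n : ℕ) :
    ∃ r : K, r ≠ 0 ∧ C.Ψ^[n] (C.γ + τ • C.w) = r • (C.γ + C.S τ n • C.w) := by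
  induction n with
  | zero => exact ⟨1, one_ne_zero, (one_smul _ _).symm⟩
  | succ n ih =>
    obtain ⟨r, hr, h⟩ := ih
    refine ⟨r ^ C.D * C.b'.eval (C.S τ n), mul_ne_zero (pow_ne_zero _ hr) (hS n), ?_⟩
    rw [Function.iterate_succ_apply', h, C.hom, C.h2]
    have e1 : C.S τ (n + 1) = (C.S τ n) * C.a'.eval (C.S τ n) / C.b'.eval (C.S τ n) := rfl
    rw [e1]
    funext k
    simp only [Pi.add_apply, Pi.smul_apply, smul_eq_mul]
    have := hS n
    field_simp

end abs

section local_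

variable {p : ℕ} [Fact p.Prime] {K : Type} [Field K] (σ : K →+* PadicAlgCl p) (C : CoordB K)

theorem recurB {C : CoordB K}
    (h : ∀ q ∈ ({C.a', C.b'} : Set K[X]),
      (∀ n ∈ q.support, ∃ x, σ (q.coeff n) = io p x) ∧ ∃ x, σ (q.eval 0)⁻¹ = io p x) {τ : K}
    {x : ℤ_[p]} (hx : σ τ = io p x) (hx1 : ‖x‖ < 1) :
    (∀ n, C.b'.eval (C.S τ n) ≠ 0) ∧
    ∃ u : ℕ → ℤ_[p], (∀ n, σ (C.S τ n) = io p (u n)) ∧
      ∀ n m, ‖u (n + 1) - u (m + 1)‖ = ‖u n - u m‖ := by
  have lift : ∀ q ∈ ({C.a', C.b'} : Set K[X]), q.eval 0 ≠ 0 →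
      ∃ A : ℤ_[p][X], A.map (io p) = q.map σ ∧ IsUnit (A.eval 0) := by
    intro q hq h0
    obtain ⟨h1, h2⟩ := h q hq
    obtain ⟨A, hA⟩ := lift_poly σ q h1
    refine ⟨A, hA, lift_unit σ h0 ?_ h2⟩
    exact lift_eval σ hA (τ := 0) (x := 0) (by rw [map_zero, map_zero])
  obtain ⟨A, hA, uA⟩ := lift C.a' (by simp) C.ha'
  obtain ⟨B, hB, uB⟩ := lift C.b' (by simp) C.hb'
  have hn : ∀ n, ‖(gmap A B)^[n] x‖ < 1 := by
    intro n
    induction n with
    | zero => exact hx1
    | succ n ih => rwa [Function.iterate_succ_apply', gmap_norm uA uB ih]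
  have hS : ∀ n, σ (C.S τ n) = io p ((gmap A B)^[n] x) := by
    intro n
    induction n with
    | zero => exact hx
    | succ n ih =>
      have e1 : C.S τ (n + 1) = (C.S τ n) * C.a'.eval (C.S τ n) / C.b'.eval (C.S τ n) := rfl
      rw [e1, (rec_step σ hA hB uA uB ih (hn n)).2.2, Function.iterate_succ_apply']
  refine ⟨fun n => (rec_step σ hA hB uA uB (hS n) (hn n)).2.1,
    fun n => (gmap A B)^[n] x, hS, fun n m => ?_⟩
  show ‖(gmap A B)^[n + 1] x - (gmap A B)^[m + 1] x‖ = _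
  rw [Function.iterate_succ_apply', Function.iterate_succ_apply', gmap_isom uA uB (hn n) (hn m)]

end local_

section exist

variable {K : Type} [Field K] {F G : MvPolynomial (Fin 2) K}

/-- a fixed point -/
theorem exists_fixed [IsAlgClosed K] {d : ℕ} (M : ℕ) (hF : F.IsHomogeneous d)
    (hG : G.IsHomogeneous d) : ∃ γ : Fin 2 → K, γ ≠ 0 ∧ ∃ t : K, (pm F G K)^[M] γ = t • γ := by
  set c : Fin 2 → K := ![1, 0] with hc
  set w : Fin 2 → K := ![0, 1] with hw
  set V := (pm F G K[X])^[M] (line c w) with hV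
  set q := det2 (line c w) V with hq
  set D := d ^ M with hD
  have hline : ∀ i, (line c w i).natDegree ≤ 1 := by
    intro i
    unfold line
    compute_degree
  obtain ⟨hdeg, hco⟩ := pm_iter_deg hF hG M hline
  have hl1 : (fun i => (line c w i).coeff 1) = w := by
    funext i
    simp [line, coeff_C]
  rw [hl1, ← hV, ← hD] at hco
  rw [← hV, ← hD] at hdeg
  have hco' : ∀ i, (V i).coeff D = (pm F G K)^[M] w i := fun i => congrFun hco i
  by_cases hq0 : q.natDegree = 0
  · refine ⟨w, ?_, parallel ?_ ?_⟩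
    · intro h
      have := congrFun h 1
      simp [hw] at this
    · intro h
      have := congrFun h 1
      simp [hw] at this
    · have hqe : q = det2 (cc c) V + X * det2 (cc w) V := by
        rw [hq]
        simp only [det2, line, cc]
        ring
      have hcdeg : (det2 (cc c) V).natDegree ≤ D := by
        unfold det2 cc
        refine (natDegree_sub_le _ _).trans (max_le ?_ ?_)
        · exact (natDegree_C_mul_le _ _).trans (hdeg 1)
        · exact (natDegree_C_mul_le _ _).trans (hdeg 0)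
      have hωco : (det2 (cc w) V).coeff D = det2 w ((pm F G K)^[M] w) := by
        unfold det2 cc
        rw [coeff_sub, coeff_C_mul, coeff_C_mul, hco', hco']
      have hqco : q.coeff (D + 1) = det2 w ((pm F G K)^[M] w) := by
        rw [hqe, coeff_add, coeff_X_mul, hωco, coeff_eq_zero_of_natDegree_lt (by omega), zero_add]
      rw [← hqco]
      exact coeff_eq_zero_of_natDegree_lt (by omega)
  · obtain ⟨x, hx⟩ := IsAlgClosed.exists_root q (by
      intro h
      exact hq0 (natDegree_eq_zero_iff_degree_le_zero.2 h.le))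
    have hg0 : c + x • w ≠ 0 := by
      intro h
      have := congrFun h 0
      simp [hw, hc] at this
    refine ⟨c + x • w, hg0, parallel hg0 ?_⟩
    have hVx : (fun i => (V i).eval x) = (pm F G K)^[M] (c + x • w) := by
      funext i
      rw [hV, iter_eval, line_eval]
    have h1 : q.eval x = 0 := hx
    rw [hq, det_eval, line_eval, hVx] at h1
    exact h1

/-- good coordinates of one of the two kinds -/
theorem exists_coord_or [IsAlgClosed K] [CharZero K] {d M : ℕ} (hd : 2 ≤ d)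
    (hF : F.IsHomogeneous d) (hG : G.IsHomogeneous d)
    (h0 : ∀ v : Fin 2 → K, MvPolynomial.eval v F = 0 → MvPolynomial.eval v G = 0 → v = 0) :
    (∃ C : Coord K, C.Ψ = (pm F G K)^[M]) ∨ ∃ C : CoordB K, C.Ψ = (pm F G K)^[M] := by
  obtain ⟨γ, hγ0, t, ht⟩ := exists_fixed (F := F) (G := G) M hF hG
  have ht0 : t ≠ 0 := by
    rintro rfl
    rw [zero_smul] at ht
    exact pm_iter_ne h0 M γ hγ0 ht
  by_cases hSA : ∀ w, X ^ 2 ∣ det2 (cc γ) ((pm F G K[X])^[M] (line γ w))
  · exact Or.inl (exists_coord hd hF hG h0 hγ0 ht0 ht hSA)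
  right
  push Not at hSA
  obtain ⟨w, hw⟩ := hSA
  set U := (pm F G K[X])^[M] (line γ w) with hU
  have hUτ : ∀ τ : K, (fun i => (U i).eval τ) = (pm F G K)^[M] (γ + τ • w) := by
    intro τ
    funext i
    rw [hU, iter_eval, line_eval]
  have hγw : det2 γ w ≠ 0 := by
    intro h
    apply hw
    obtain ⟨s, rfl⟩ := parallel hγ0 h
    have e1 : line γ (s • γ) = (1 + X * C s) • cc γ := by
      funext i
      simp only [line, cc, Pi.smul_apply, smul_eq_mul, C_mul]
      ring
    rw [hU, e1, pm_iter_smul hF hG, iter_const, ht]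
    have e2 : det2 (cc γ) ((1 + X * C s) ^ d ^ M • cc (t • γ)) = 0 := by
      simp only [det2, cc, Pi.smul_apply, smul_eq_mul, C_mul]
      ring
    rw [e2]
    exact dvd_zero _
  set Δ := det2 γ w with hΔ
  have hδ0 : (det2 (cc γ) U).eval 0 = 0 := by
    rw [det_eval, hUτ, zero_smul, add_zero, ht]
    simp only [cc, eval_C, det2, Pi.smul_apply, smul_eq_mul]
    ring
  obtain ⟨δ, hδ⟩ : (X : K[X]) ∣ det2 (cc γ) U := by
    rw [X_dvd_iff, coeff_zero_eq_eval_zero]
    exact hδ0
  have hδ1 : δ.eval 0 ≠ 0 := by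
    intro h
    apply hw
    have : (X : K[X]) ∣ δ := by
      rw [X_dvd_iff, coeff_zero_eq_eval_zero]
      exact h
    obtain ⟨g, hg⟩ := this
    rw [hδ, hg]
    exact ⟨g, by ring⟩
  refine ⟨⟨(pm F G K)^[M], d ^ M, γ, w, C Δ⁻¹ * δ, C Δ⁻¹ * det2 U (cc w), hγw,
    fun l v => pm_iter_smul hF hG M l v, ?_, ?_, ?_⟩, rfl⟩
  · intro τ
    rw [← hUτ]
    have e1 : τ * (C Δ⁻¹ * δ).eval τ = Δ⁻¹ * det2 γ (fun i => (U i).eval τ) := by
      have h1 : (det2 (cc γ) U).eval τ = τ * δ.eval τ := by rw [hδ, eval_mul, eval_X]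
      rw [det_eval] at h1
      simp only [cc, eval_C] at h1
      rw [eval_mul, eval_C, h1]
      ring
    rw [e1, eval_mul, eval_C, det_eval]
    funext i
    simp only [Pi.add_apply, Pi.smul_apply, smul_eq_mul, cc, eval_C]
    have e2 := cramer γ w (fun i => (U i).eval τ) i
    rw [← hΔ] at e2
    apply mul_left_cancel₀ hγw
    have e3 : Δ * Δ⁻¹ = 1 := mul_inv_cancel₀ hγw
    linear_combination e2 - (det2 (fun i => (U i).eval τ) w * γ i +
      det2 γ (fun i => (U i).eval τ) * w i) * e3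
  · rw [eval_mul, eval_C]
    exact mul_ne_zero (inv_ne_zero hγw) hδ1
  · rw [eval_mul, eval_C, det_eval, hUτ, zero_smul, add_zero, ht]
    refine mul_ne_zero (inv_ne_zero hγw) ?_
    have e1 : det2 (t • γ) (fun i => (cc w i).eval 0) = t * Δ := by
      simp only [hΔ, det2, cc, eval_C, Pi.smul_apply, smul_eq_mul]
      ring
    rw [e1]
    exact mul_ne_zero ht0 hγw

end exist

end Pool.Agent.TH61.PCH
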