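import Pool.Agent.TH61.PCH.CoordB

/-!
# Uniform data of the two kinds of coordinates
-/

set_option autoImplicit false

namespace Pool.Agent.TH61.PCH

open Polynomial Filter Topology Pool.Agent.TH61.PCF

/-- the data -/
structure Dat where
  sa : Prop
  Ψ : (Fin 2 → AlgebraicClosure ℚ) → (Fin 2 → AlgebraicClosure ℚ)
  U : Fin 2 → AlgebraicClosure ℚ
  W : Fin 2 → AlgebraicClosure ℚ
  hind : U 0 * W 1 - U 1 * W 0 ≠ 0
  T : AlgebraicClosure ℚ → ℕ → AlgebraicClosure ℚ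
  Z : Finset (AlgebraicClosure ℚ)
  att : sa → ∀ (p : ℕ) [Fact p.Prime] (σ : AlgebraicClosure ℚ →+* PadicAlgCl p),
    (∀ z ∈ Z, ∃ x : ℤ_[p], σ z = io p x) → ∀ τ : AlgebraicClosure ℚ, τ ≠ 0 → ∀ x : ℤ_[p],
      σ τ = io p x → ‖x‖ < 1 →
      (∀ n, T τ n ≠ 0) ∧
      (∀ n, ∃ r : AlgebraicClosure ℚ, r ≠ 0 ∧ Ψ^[n] (U + τ • W) = r • (U + T τ n • W)) ∧
      Tendsto (fun n => σ (T τ n)) atTop (𝓝 0)
  recA : sa → ∀ (p : ℕ) [Fact p.Prime] (σ : AlgebraicClosure ℚ →+* PadicAlgCl p),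
    (∀ z ∈ Z, ∃ x : ℤ_[p], σ z = io p x) → ∀ τ : AlgebraicClosure ℚ, (∀ n, T τ n ≠ 0) →
      ∀ x : ℤ_[p], σ τ⁻¹ = io p x → ‖x‖ < 1 →
      ∃ u : ℕ → ℤ_[p], (∀ n, σ (T τ n)⁻¹ = io p (u n)) ∧
        ∀ n m, ‖u (n + 1) - u (m + 1)‖ = ‖u n - u m‖
  recB : ¬ sa → ∀ (p : ℕ) [Fact p.Prime] (σ : AlgebraicClosure ℚ →+* PadicAlgCl p),
    (∀ z ∈ Z, ∃ x : ℤ_[p], σ z = io p x) → ∀ τ : AlgebraicClosure ℚ, ∀ x : ℤ_[p],
      σ τ = io p x → ‖x‖ < 1 →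
      (∀ n, ∃ r : AlgebraicClosure ℚ, r ≠ 0 ∧ Ψ^[n] (U + τ • W) = r • (U + T τ n • W)) ∧
      ∃ u : ℕ → ℤ_[p], (∀ n, σ (T τ n) = io p (u n)) ∧
        ∀ n m, ‖u (n + 1) - u (m + 1)‖ = ‖u n - u m‖

theorem exists_datA (C : Coord (AlgebraicClosure ℚ)) : ∃ X : Dat, X.Ψ = C.Ψ ∧ X.sa := by
  classical
  let Z : Finset (AlgebraicClosure ℚ) :=
    ({C.a, C.b, C.a', C.b'} : Finset (AlgebraicClosure ℚ)[X]).biUnion
      fun q => insert (q.eval 0)⁻¹ (q.support.image q.coeff)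
  have hgood : ∀ (p : ℕ) [Fact p.Prime] (σ : AlgebraicClosure ℚ →+* PadicAlgCl p),
      (∀ z ∈ Z, ∃ x : ℤ_[p], σ z = io p x) → Good σ C := by
    intro p _ σ hσ q hq
    have hq' : q ∈ ({C.a, C.b, C.a', C.b'} : Finset (AlgebraicClosure ℚ)[X]) := by
      simpa using hq
    have hmem : ∀ z, z ∈ insert (q.eval 0)⁻¹ (q.support.image q.coeff) →
        ∃ x : ℤ_[p], σ z = io p x := fun z hz => hσ z (Finset.mem_biUnion.2 ⟨q, hq', hz⟩)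
    exact ⟨fun n hn => hmem _ (Finset.mem_insert_of_mem (Finset.mem_image_of_mem _ hn)),
      hmem _ (Finset.mem_insert_self _ _)⟩
  refine ⟨⟨True, C.Ψ, C.c, C.γ, C.hind, C.T, Z, ?_, ?_, ?_⟩, rfl, trivial⟩
  · intro _ p _ σ hσ τ hτ x hx hx1
    obtain ⟨h1, h2, h3⟩ := attract σ (hgood p σ hσ) hτ hx hx1
    exact ⟨h1, fun n => C.orbit h2 one_ne_zero (one_smul _ _).symm n, h3⟩
  · intro _ p _ σ hσ τ hT x hx hx1
    exact recur σ (hgood p σ hσ) hT hx hx1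
  · intro h
    exact absurd trivial h

theorem exists_datB (C : CoordB (AlgebraicClosure ℚ)) : ∃ X : Dat, X.Ψ = C.Ψ ∧ ¬ X.sa := by
  classical
  let Z : Finset (AlgebraicClosure ℚ) :=
    ({C.a', C.b'} : Finset (AlgebraicClosure ℚ)[X]).biUnion
      fun q => insert (q.eval 0)⁻¹ (q.support.image q.coeff)
  have hgood : ∀ (p : ℕ) [Fact p.Prime] (σ : AlgebraicClosure ℚ →+* PadicAlgCl p),
      (∀ z ∈ Z, ∃ x : ℤ_[p], σ z = io p x) → ∀ q ∈ ({C.a', C.b'} : Set (AlgebraicClosure ℚ)[X]),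
      (∀ n ∈ q.support, ∃ x, σ (q.coeff n) = io p x) ∧ ∃ x, σ (q.eval 0)⁻¹ = io p x := by
    intro p _ σ hσ q hq
    have hq' : q ∈ ({C.a', C.b'} : Finset (AlgebraicClosure ℚ)[X]) := by
      simpa using hq
    have hmem : ∀ z, z ∈ insert (q.eval 0)⁻¹ (q.support.image q.coeff) →
        ∃ x : ℤ_[p], σ z = io p x := fun z hz => hσ z (Finset.mem_biUnion.2 ⟨q, hq', hz⟩)
    exact ⟨fun n hn => hmem _ (Finset.mem_insert_of_mem (Finset.mem_image_of_mem _ hn)),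
      hmem _ (Finset.mem_insert_self _ _)⟩
  refine ⟨⟨False, C.Ψ, C.γ, C.w, C.hind, C.S, Z, ?_, ?_, ?_⟩, rfl, not_false⟩
  · intro h
    exact h.elim
  · intro h
    exact h.elim
  · intro _ p _ σ hσ τ x hx hx1
    obtain ⟨h1, h2⟩ := recurB σ (hgood p σ hσ) hx hx1
    exact ⟨fun n => C.orbit h1 n, h2⟩

/-- descending vectors -/
theorem descend_vec {L K : Type} [Field L] [Field K] (ι : L →+* K) {U W v : Fin 2 → L}
    (hdet : U 0 * W 1 - U 1 * W 0 ≠ 0) {r T : K} (hr : r ≠ 0)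
    (h : (fun k => ι (v k)) = r • ((fun k => ι (U k)) + T • (fun k => ι (W k)))) :
    ∃ r' s : L, r' ≠ 0 ∧ v = r' • (U + s • W) ∧ ι s = T := by
  have h0 : ι (v 0) = r * (ι (U 0) + T * ι (W 0)) := congrFun h 0
  have h1 : ι (v 1) = r * (ι (U 1) + T * ι (W 1)) := congrFun h 1
  have hd : ι (U 0) * ι (W 1) - ι (U 1) * ι (W 0) ≠ 0 := by
    rw [← map_mul, ← map_mul, ← map_sub]
    exact (map_ne_zero ι).2 hdet
  set Δ := U 0 * W 1 - U 1 * W 0 with hΔ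
  have hΔ' : ι Δ = ι (U 0) * ι (W 1) - ι (U 1) * ι (W 0) := by rw [hΔ, map_sub, map_mul, map_mul]
  have e1 : ι (v 0 * W 1 - v 1 * W 0) = r * ι Δ := by
    rw [map_sub, map_mul, map_mul, h0, h1, hΔ']
    ring
  have e2 : ι (U 0 * v 1 - U 1 * v 0) = r * T * ι Δ := by
    rw [map_sub, map_mul, map_mul, h0, h1, hΔ']
    ring
  have hιΔ : ι Δ ≠ 0 := (map_ne_zero ι).2 hdet
  have hn : v 0 * W 1 - v 1 * W 0 ≠ 0 := by
    rw [← map_ne_zero ι, e1]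
    exact mul_ne_zero hr hιΔ
  have e3 : ι ((v 0 * W 1 - v 1 * W 0) / Δ) = r := by
    rw [map_div₀, e1]
    field_simp
  have e4 : ι ((U 0 * v 1 - U 1 * v 0) / (v 0 * W 1 - v 1 * W 0)) = T := by
    rw [map_div₀, e1, e2]
    field_simp
  refine ⟨(v 0 * W 1 - v 1 * W 0) / Δ, (U 0 * v 1 - U 1 * v 0) / (v 0 * W 1 - v 1 * W 0),
    div_ne_zero hn hdet, ?_, e4⟩
  funext k
  apply ι.injective
  simp only [Pi.smul_apply, Pi.add_apply, smul_eq_mul]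
  rw [map_mul, map_add, map_mul, e3, e4]
  exact congrFun h k

end Pool.Agent.TH61.PCH
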