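import Pool.Agent.TH61.PCH.Root

/-!
# Zariski density from attraction, recurrence and growth of heights
-/

set_option autoImplicit false

namespace Pool.Agent.TH61.PCH

open Filter Topology Height

theorem density2 {K : Type} [Field K] [AdmissibleAbsValues K] : ∀ (N : ℕ) (t : ℕ → Fin N → K)
    (_ : ∀ i : Fin N, (∃ (Ω : Type) (_ : NormedField Ω) (σ : K →+* Ω) (M : ℕ → ℕ),
      (∀ n, t n i ≠ 0) ∧ Tendsto (fun n => σ (t n i)) atTop (𝓝 0) ∧ Tendsto M atTop atTop ∧
      ∀ m j, i < j → Tendsto (fun k => σ (t (m + M k) j)) atTop (𝓝 (σ (t m j)))) ∨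
      (∀ C : ℝ, 0 ≤ C → ∀ᶠ n in atTop,
        C * (1 + ∑ j, if i < j then logHeight₁ (t n j) else 0) < logHeight₁ (t n i)))
    (R : MvPolynomial (Fin N) K) (n₀ : ℕ), (∀ n, n₀ ≤ n → MvPolynomial.eval (t n) R = 0) →
      R = 0 := by
  intro N
  induction N with
  | zero =>
    intro t _ R n₀ hR
    rw [MvPolynomial.eq_C_of_isEmpty R] at hR ⊢
    have := hR n₀ le_rfl
    rw [MvPolynomial.eval_C] at this
    rw [this, map_zero]
  | succ N ih =>
    intro t ht R n₀ hR
    set s : ℕ → Fin N → K := fun n j => t n j.succ with hs
    have hcons : ∀ n, t n = Fin.cons (t n 0) (s n) := fun n => (Fin.cons_self_tail (t n)).symm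
    have IH := ih s (by
      intro i
      rcases ht i.succ with ⟨Ω, hΩ, σ, M, h1, h2, h3, h4⟩ | h
      · left
        exact ⟨Ω, hΩ, σ, M, h1, h2, h3, fun m j hij => h4 m j.succ (Fin.succ_lt_succ_iff.2 hij)⟩
      · right
        intro C hC
        filter_upwards [h C hC] with n hn
        rw [Fin.sum_univ_succ] at hn
        simpa only [Fin.succ_lt_succ_iff, Fin.not_lt_zero, if_false, zero_add] using hn)
    rcases ht 0 with ⟨Ω, hΩ, σ, M, h1, h2, h3, h4⟩ | hB
    · -- polynomials in the first variable
      have main : ∀ (d : ℕ) (Q : Polynomial (MvPolynomial (Fin N) K)), Q.natDegree ≤ d →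
          (∀ n, n₀ ≤ n → Polynomial.eval (t n 0) (Q.map (MvPolynomial.eval (s n))) = 0) →
          Q = 0 := by
        -- the constant coefficient vanishes
        have hc : ∀ Q : Polynomial (MvPolynomial (Fin N) K),
            (∀ n, n₀ ≤ n → Polynomial.eval (t n 0) (Q.map (MvPolynomial.eval (s n))) = 0) →
            Q.coeff 0 = 0 := by
          intro Q hQ
          refine IH _ n₀ ?_
          intro m hm
          apply σ.injective
          rw [map_zero]
          -- the polynomial over Ω
          set R' : MvPolynomial (Fin (N + 1)) K := (MvPolynomial.finSuccEquiv K N).symm Q with hR'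
          have hQR : MvPolynomial.finSuccEquiv K N R' = Q := AlgEquiv.apply_symm_apply _ _
          have e1 : ∀ (y : K) (w : Fin N → K),
              MvPolynomial.eval (Fin.cons y w : Fin (N + 1) → K) R' =
              Polynomial.eval y (Q.map (MvPolynomial.eval w)) := by
            intro y w
            rw [MvPolynomial.eval_eq_eval_mv_eval', hQR]
          have hcont := MvPolynomial.continuous_eval (MvPolynomial.map σ R')
          have hlim : Tendsto (fun k => (Fin.cons (σ (t (m + M k) 0))
              (fun j => σ (s (m + M k) j)) : Fin (N + 1) → Ω)) atTop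
              (𝓝 (Fin.cons 0 (fun j => σ (s m j)))) := by
            rw [tendsto_pi_nhds]
            intro i
            refine Fin.cases ?_ (fun j => ?_) i
            · simp only [Fin.cons_zero]
              exact h2.comp (tendsto_atTop_mono (fun k => Nat.le_add_left (M k) m) h3)
            · simp only [Fin.cons_succ]
              exact h4 m j.succ (Fin.succ_pos j)
          have hev := (hcont.tendsto _).comp hlim
          have hz : ∀ k, MvPolynomial.eval (Fin.cons (σ (t (m + M k) 0))
              (fun j => σ (s (m + M k) j)) : Fin (N + 1) → Ω) (MvPolynomial.map σ R') = 0 := by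
            intro k
            have e2 : (Fin.cons (σ (t (m + M k) 0)) (fun j => σ (s (m + M k) j)) :
                Fin (N + 1) → Ω) = σ ∘ (Fin.cons (t (m + M k) 0) (s (m + M k))) := by
              funext i
              refine Fin.cases ?_ (fun j => ?_) i <;> simp
            rw [e2, MvPolynomial.eval_map, ← MvPolynomial.eval₂_comp, e1, hQ _ (by omega), map_zero]
          have hz' : MvPolynomial.eval (Fin.cons 0 (fun j => σ (s m j)) : Fin (N + 1) → Ω)
              (MvPolynomial.map σ R') = 0 := by
            refine tendsto_nhds_unique hev ?_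
            refine tendsto_const_nhds.congr fun k => ?_
            exact (hz k).symm
          have e3 : (Fin.cons 0 (fun j => σ (s m j)) : Fin (N + 1) → Ω) =
              σ ∘ (Fin.cons 0 (s m)) := by
            funext i
            refine Fin.cases ?_ (fun j => ?_) i <;> simp
          rw [e3, MvPolynomial.eval_map, ← MvPolynomial.eval₂_comp, e1] at hz'
          rw [← Polynomial.coeff_zero_eq_eval_zero, Polynomial.coeff_map] at hz'
          exact hz'
        intro d
        induction d with
        | zero =>
          intro Q hQd hQ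
          rw [Polynomial.eq_C_of_natDegree_le_zero hQd, hc Q hQ, map_zero]
        | succ d ihd =>
          intro Q hQd hQ
          have h0 := hc Q hQ
          obtain ⟨Q', rfl⟩ := Polynomial.X_dvd_iff.2 h0
          have h5 : Q' = 0 := by
            apply ihd
            · by_cases hQ0 : Q' = 0
              · rw [hQ0]; simp
              · rw [Polynomial.natDegree_X_mul hQ0] at hQd
                omega
            · intro n hn
              have := hQ n hn
              rw [Polynomial.map_mul, Polynomial.map_X, Polynomial.eval_mul, Polynomial.eval_X]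
                at this
              exact (mul_eq_zero.1 this).resolve_left (h1 n)
          rw [h5, mul_zero]
      have h6 := main _ (MvPolynomial.finSuccEquiv K N R) le_rfl (by
        intro n hn
        rw [← MvPolynomial.eval_eq_eval_mv_eval', ← hcons]
        exact hR n hn)
      exact (map_eq_zero_iff _ (MvPolynomial.finSuccEquiv K N).injective).1 h6
    · -- heights
      by_contra hne
      have hQ0 : MvPolynomial.finSuccEquiv K N R ≠ 0 := by
        intro h
        exact hne ((map_eq_zero_iff _ (MvPolynomial.finSuccEquiv K N).injective).1 h)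
      set Q := MvPolynomial.finSuccEquiv K N R with hQ
      obtain ⟨C, hC, hroot⟩ := root_bound Q
      obtain ⟨n₁, hn₁⟩ := eventually_atTop.1 (hB C hC)
      have hlead : Q.leadingCoeff = 0 := by
        refine IH _ (max n₀ n₁) fun n hn => ?_
        by_contra hl
        have h1 := hroot (s n) (t n 0) (by
          rw [hQ, ← MvPolynomial.eval_eq_eval_mv_eval', ← hcons]
          exact hR n (le_trans (le_max_left _ _) hn)) hl
        have h2 := hn₁ n (le_trans (le_max_right _ _) hn)
        rw [Fin.sum_univ_succ] at h2
        simp only [lt_self_iff_false, if_false, Fin.succ_pos, if_true, zero_add] at h2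
        linarith
      exact hQ0 (Polynomial.leadingCoeff_eq_zero.1 hlead)

/-- any order of the coordinates -/
theorem density3 {K : Type} [Field K] [AdmissibleAbsValues K] (N : ℕ) (t : ℕ → Fin N → K)
    (SA : Fin N → Prop) (D : Fin N → ℕ)
    (hSA : ∀ i : Fin N, SA i → ∃ (Ω : Type) (_ : NormedField Ω) (σ : K →+* Ω) (M : ℕ → ℕ),
      (∀ n, t n i ≠ 0) ∧ Tendsto (fun n => σ (t n i)) atTop (𝓝 0) ∧ Tendsto M atTop atTop ∧
      ∀ m j, i ≠ j → Tendsto (fun k => σ (t (m + M k) j)) atTop (𝓝 (σ (t m j))))
    (hSB : ∀ i : Fin N, ¬ SA i → ∀ s : Finset (Fin N), (∀ j ∈ s, ¬ SA j ∧ D j < D i) →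
      ∀ C : ℝ, 0 ≤ C → ∀ᶠ n in atTop,
        C * (1 + ∑ j ∈ s, logHeight₁ (t n j)) < logHeight₁ (t n i))
    (hD : ∀ i j, ¬ SA i → ¬ SA j → i ≠ j → D i ≠ D j)
    (R : MvPolynomial (Fin N) K) (hR : ∀ n, MvPolynomial.eval (t n) R = 0) : R = 0 := by
  classical
  set S : ℕ := ∑ i, D i with hS
  have hDS : ∀ i, D i ≤ S := fun i =>
    Finset.single_le_sum (f := D) (fun _ _ => Nat.zero_le _) (Finset.mem_univ i)
  let κ : Fin N → ℕ := fun i => if SA i then 0 else 1 + (S - D i)
  set π := Tuple.sort κ with hπ
  have hmono : Monotone (κ ∘ π) := Tuple.monotone_sort κ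
  have hκA : ∀ i, SA i → κ i = 0 := fun i h => if_pos h
  have hκB : ∀ i, ¬ SA i → κ i = 1 + (S - D i) := fun i h => if_neg h
  have hord : ∀ i j, i < j → ¬ SA (π i) → ¬ SA (π j) ∧ D (π j) < D (π i) := by
    intro i j hij hi
    have h1 : κ (π i) ≤ κ (π j) := hmono hij.le
    rw [hκB _ hi] at h1
    have hj : ¬ SA (π j) := by
      intro hj
      rw [hκA _ hj] at h1
      omega
    rw [hκB _ hj] at h1
    have h2 := hDS (π i)
    have h3 := hDS (π j)
    have h4 := hD (π i) (π j) hi hj (fun h => hij.ne (π.injective h))
    exact ⟨hj, by omega⟩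
  have h1 := density2 N (fun n i => t n (π i)) (by
    intro i
    by_cases hi : SA (π i)
    · left
      obtain ⟨Ω, hΩ, σ, M, h1, h2, h3, h4⟩ := hSA _ hi
      exact ⟨Ω, hΩ, σ, M, h1, h2, h3, fun m j hij => h4 m (π j) fun h => hij.ne (π.injective h)⟩
    · right
      intro C hC
      have h1 := hSB _ hi ((Finset.univ.filter (i < ·)).image π) (by
        intro j hj
        obtain ⟨k, hk, rfl⟩ := Finset.mem_image.1 hj
        exact hord i k (Finset.mem_filter.1 hk).2 hi) C hC
      filter_upwards [h1] with n hn
      rw [Finset.sum_image (fun a _ b _ h => π.injective h), Finset.sum_filter] at hn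
      exact hn) (MvPolynomial.rename π.symm R) 0 (by
    intro n _
    rw [MvPolynomial.eval_rename, ← hR n]
    congr 2
    funext i
    simp)
  exact (MvPolynomial.rename_injective _ π.symm.injective) (by rw [h1, map_zero])

/-- coefficients in a larger field -/
theorem descent {L K : Type} [Field L] [Field K] [Algebra L K] {N : ℕ} (t : ℕ → Fin N → L)
    (h : ∀ R : MvPolynomial (Fin N) L, (∀ n, MvPolynomial.eval (t n) R = 0) → R = 0)
    (R : MvPolynomial (Fin N) K)
    (hR : ∀ n, MvPolynomial.eval (fun i => algebraMap L K (t n i)) R = 0) : R = 0 := by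
  classical
  have key : ∀ φ : K →ₗ[L] L, ∀ m, φ (R.coeff m) = 0 := by
    intro φ
    have h1 := h (∑ m ∈ R.support, MvPolynomial.monomial m (φ (R.coeff m))) (by
      intro n
      have e1 := congrArg φ (hR n)
      rw [map_zero, MvPolynomial.eval_eq, map_sum] at e1
      rw [map_sum, ← e1]
      refine Finset.sum_congr rfl fun m _ => ?_
      rw [MvPolynomial.eval_monomial]
      have e2 : MvPolynomial.coeff m R * ∏ i ∈ m.support, (algebraMap L K (t n i)) ^ m i =
          (∏ i ∈ m.support, (t n i) ^ m i) • MvPolynomial.coeff m R := by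
        rw [Algebra.smul_def, map_prod]
        simp only [map_pow]
        rw [mul_comm]
      rw [e2, map_smul, smul_eq_mul, mul_comm]
      rfl)
    intro m
    by_cases hm : m ∈ R.support
    · have h2 := congrArg (MvPolynomial.coeff m) h1
      rw [MvPolynomial.coeff_sum, MvPolynomial.coeff_zero] at h2
      simp only [MvPolynomial.coeff_monomial] at h2
      rw [Finset.sum_ite_eq' _ m, if_pos hm] at h2
      exact h2
    · rw [MvPolynomial.notMem_support_iff.1 hm, map_zero]
  ext m
  rw [MvPolynomial.coeff_zero, ← Module.forall_dual_apply_eq_zero_iff L]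
  exact fun φ => key φ m

end Pool.Agent.TH61.PCH
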