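import Mathlib

/-!
# A number field containing finitely many algebraic numbers
-/

set_option autoImplicit false

namespace Pool.Agent.TH61.PCH

open Height

/-- a number field containing a finite set -/
theorem exists_field (Z : Finset (AlgebraicClosure ℚ)) :
    ∃ (L : IntermediateField ℚ (AlgebraicClosure ℚ)), NumberField L ∧ ∀ z ∈ Z, z ∈ L := by
  have hI : ∀ x : AlgebraicClosure ℚ, IsIntegral ℚ x := fun x =>
    ((AlgebraicClosure.isAlgebraic ℚ).isAlgebraic x).isIntegral
  have : Finite (Z : Set (AlgebraicClosure ℚ)) := Z.finite_toSet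
  have : FiniteDimensional ℚ (IntermediateField.adjoin ℚ (Z : Set (AlgebraicClosure ℚ))) :=
    IntermediateField.finiteDimensional_adjoin fun x _ => hI x
  exact ⟨IntermediateField.adjoin ℚ (Z : Set (AlgebraicClosure ℚ)),
    { to_charZero := inferInstance, to_finiteDimensional := this },
    fun z hz => IntermediateField.subset_adjoin _ _ hz⟩

/-- lifting polynomials -/
theorem lift_mv {L : IntermediateField ℚ (AlgebraicClosure ℚ)}
    (P : MvPolynomial (Fin 2) (AlgebraicClosure ℚ)) (h : ∀ m ∈ P.support, P.coeff m ∈ L) :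
    ∃ Q : MvPolynomial (Fin 2) L, MvPolynomial.map (algebraMap L (AlgebraicClosure ℚ)) Q = P := by
  have := (MvPolynomial.mem_range_map_iff_coeffs_subset
    (f := algebraMap L (AlgebraicClosure ℚ)) (x := P)).2 (by
      intro z hz
      obtain ⟨m, hm, rfl⟩ := MvPolynomial.mem_coeffs_iff.1 (Finset.mem_coe.1 hz)
      exact ⟨⟨_, h m hm⟩, rfl⟩)
  exact this

/-- elements of large height -/
theorem exists_large {L : Type} [Field L] [NumberField L] {P : ℕ} (hP : P ≠ 0) (B : ℝ) :
    ∃ k : ℕ, B < logHeight₁ ((k * P : ℕ) : L) := by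
  by_contra hcon
  push Not at hcon
  have h1 : (Set.range fun k : ℕ => ((k * P : ℕ) : L)).Finite := by
    refine (NumberField.finite_setOfPred_logHeight₁_le L B).subset ?_
    rintro _ ⟨k, rfl⟩
    exact hcon k
  refine h1.not_infinite (Set.infinite_range_of_injective fun a b hab => ?_)
  have h2 : a * P = b * P := by exact_mod_cast hab
  exact Nat.eq_of_mul_eq_mul_right (Nat.pos_of_ne_zero hP) h2

end Pool.Agent.TH61.PCH
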