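import Pool.Agent.TH61.PCF.Fin

/-!
# From affine density to multihomogeneous density
-/

set_option autoImplicit false

namespace Pool.Agent.TH61.PCH

open Pool.Agent.TH61.PCF

theorem finish {K : Type} [Field K] [Infinite K] (N : ℕ)
    (Ψ : Fin N → (Fin 2 → K) → (Fin 2 → K)) (U W : Fin N → Fin 2 → K)
    (hind : ∀ i, U i 0 * W i 1 - U i 1 * W i 0 ≠ 0) (α : Fin N → Fin 2 → K) (t : ℕ → Fin N → K)
    (horb : ∀ (i : Fin N) (n : ℕ), ∃ r : K, r ≠ 0 ∧ (Ψ i)^[n] (α i) = r • (U i + t n i • W i))
    (hdens : ∀ R : MvPolynomial (Fin N) K, (∀ n, MvPolynomial.eval (t n) R = 0) → R = 0)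
    (P : MvPolynomial (Fin N × Fin 2) K)
    (hP : ∀ (n : ℕ) (x : Fin N → K), (∀ i, x i ≠ 0) →
          MvPolynomial.eval (fun q : Fin N × Fin 2 => x q.1 * ((Ψ q.1)^[n] (α q.1)) q.2) P = 0) :
    P = 0 := by
  classical
  choose r hr0 hr using horb
  let L : Fin N → MvPolynomial (Fin N × Fin 2) K := fun i =>
    MvPolynomial.X (i, 0) * MvPolynomial.C (W i 1) -
      MvPolynomial.X (i, 1) * MvPolynomial.C (W i 0)
  have hL : ∀ i (z : Fin N × Fin 2 → K), MvPolynomial.eval z (L i) =
      z (i, 0) * W i 1 - z (i, 1) * W i 0 := by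
    intro i z
    simp [L]
  have hprod : P * ∏ i, L i = 0 := by
    apply MvPolynomial.funext
    intro z
    rw [map_mul, map_prod, map_zero]
    by_cases hz : ∃ i, MvPolynomial.eval z (L i) = 0
    · obtain ⟨i, hi⟩ := hz
      rw [Finset.prod_eq_zero (Finset.mem_univ i) hi, mul_zero]
    push Not at hz
    -- coordinates
    let dt : Fin N → K := fun i => U i 0 * W i 1 - U i 1 * W i 0
    let s : Fin N → K := fun i => MvPolynomial.eval z (L i) / dt i
    let w : Fin N → K := fun i =>
      (U i 0 * z (i, 1) - U i 1 * z (i, 0)) / dt i / s i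
    have hdt : ∀ i, dt i ≠ 0 := fun i => hind i
    have hs0 : ∀ i, s i ≠ 0 := fun i => div_ne_zero (hz i) (hdt i)
    have hz1 : ∀ q : Fin N × Fin 2, z q = s q.1 * (U q.1 q.2 + w q.1 * W q.1 q.2) := by
      rintro ⟨i, k⟩
      have hd := hdt i
      have hs := hs0 i
      have e1 : s i * (dt i) = z (i, 0) * W i 1 - z (i, 1) * W i 0 := by
        rw [← hL]
        exact div_mul_cancel₀ _ hd
      have e2 : s i * w i * dt i = U i 0 * z (i, 1) - U i 1 * z (i, 0) := by
        simp only [w]
        field_simp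
      show z (i, k) = s i * (U i k + w i * W i k)
      apply mul_right_cancel₀ hd
      have e3 : dt i = U i 0 * W i 1 - U i 1 * W i 0 := rfl
      fin_cases k
      · show z (i, 0) * dt i = s i * (U i 0 + w i * W i 0) * dt i
        linear_combination -U i 0 * e1 - W i 0 * e2 + z (i, 0) * e3
      · show z (i, 1) * dt i = s i * (U i 1 + w i * W i 1) * dt i
        linear_combination -U i 1 * e1 - W i 1 * e2 + z (i, 1) * e3
    set R : MvPolynomial (Fin N) K :=
      MvPolynomial.aeval (fun q : Fin N × Fin 2 => MvPolynomial.C (s q.1) *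
        (MvPolynomial.C (U q.1 q.2) + MvPolynomial.X q.1 * MvPolynomial.C (W q.1 q.2))) P
      with hR
    have hRe : ∀ t : Fin N → K, MvPolynomial.eval t R =
        MvPolynomial.eval (fun q : Fin N × Fin 2 =>
          s q.1 * (U q.1 q.2 + t q.1 * W q.1 q.2)) P := by
      intro t
      rw [hR, ← aeval_eq_ev, ← aeval_eq_ev]
      have := MvPolynomial.comp_aeval_apply (R := K)
        (f := fun q : Fin N × Fin 2 => MvPolynomial.C (s q.1) *
        (MvPolynomial.C (U q.1 q.2) + MvPolynomial.X q.1 * MvPolynomial.C (W q.1 q.2)))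
        (MvPolynomial.aeval t) P
      refine this.trans ?_
      congr 2
      funext q
      simp [aeval_eq_ev]
    have hR0 : R = 0 := by
      apply hdens
      intro n
      rw [hRe]
      have := hP n (fun i => s i / r i n) (fun i => div_ne_zero (hs0 i) (hr0 i n))
      rw [← this]
      congr 2
      funext q
      rw [hr q.1 n]
      simp only [Pi.smul_apply, Pi.add_apply, smul_eq_mul]
      have := hr0 q.1 n
      field_simp
    have e4 : MvPolynomial.eval z P = 0 := by
      have h1 := hRe w
      rw [hR0, map_zero] at h1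
      rw [h1]
      congr 2
      funext q
      exact hz1 q
    rw [e4, zero_mul]
  refine (mul_eq_zero.1 hprod).resolve_right ?_
  rw [← ne_eq, Finset.prod_ne_zero_iff]
  intro i _ h0
  have h1 := hL i (fun q => U i q.2)
  rw [h0, map_zero] at h1
  exact hind i h1.symm

end Pool.Agent.TH61.PCH
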