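import Pool.Agent.TH61.PCH.Grow
import Pool.Agent.TH61.PCH.Dens
import Pool.Agent.TH61.PCH.Dat
import Pool.Agent.TH61.PCH.Finish
import Pool.Agent.TH61.PCH.Field

/-!
# The dense orbit, two kinds of coordinates
-/

set_option autoImplicit false

namespace Pool.Agent.TH61.PCH

open Polynomial Filter Topology Height Pool.Agent.TH61.PCF

theorem pm_lift {L : IntermediateField ℚ (AlgebraicClosure ℚ)}
    {F G : MvPolynomial (Fin 2) (AlgebraicClosure ℚ)} {q : Fin 2 → MvPolynomial (Fin 2) L}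
    (h0 : MvPolynomial.map (algebraMap L (AlgebraicClosure ℚ)) (q 0) = F)
    (h1 : MvPolynomial.map (algebraMap L (AlgebraicClosure ℚ)) (q 1) = G) (v : Fin 2 → L) :
    (fun k => algebraMap L (AlgebraicClosure ℚ) (MvPolynomial.eval v (q k))) =
      pm F G (AlgebraicClosure ℚ) (fun k => algebraMap L (AlgebraicClosure ℚ) (v k)) := by
  rw [pm_eq]
  have e : ∀ Q : MvPolynomial (Fin 2) L,
      algebraMap L (AlgebraicClosure ℚ) (MvPolynomial.eval v Q) =
      MvPolynomial.eval (fun k => algebraMap L (AlgebraicClosure ℚ) (v k))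
        (MvPolynomial.map (algebraMap L (AlgebraicClosure ℚ)) Q) := by
    intro Q
    rw [MvPolynomial.eval_map]
    have := MvPolynomial.eval₂_comp (algebraMap L (AlgebraicClosure ℚ)) v Q
    rw [this]
    rfl
  funext k
  fin_cases k
  · show algebraMap L (AlgebraicClosure ℚ) (MvPolynomial.eval v (q 0)) = MvPolynomial.eval _ F
    rw [e, h0]
  · show algebraMap L (AlgebraicClosure ℚ) (MvPolynomial.eval v (q 1)) = MvPolynomial.eval _ G
    rw [e, h1]

theorem pm_lift_iter {L : IntermediateField ℚ (AlgebraicClosure ℚ)}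
    {F G : MvPolynomial (Fin 2) (AlgebraicClosure ℚ)} {q : Fin 2 → MvPolynomial (Fin 2) L}
    (h0 : MvPolynomial.map (algebraMap L (AlgebraicClosure ℚ)) (q 0) = F)
    (h1 : MvPolynomial.map (algebraMap L (AlgebraicClosure ℚ)) (q 1) = G) (v : Fin 2 → L) (n : ℕ) :
    (fun k => algebraMap L (AlgebraicClosure ℚ)
      ((fun v : Fin 2 → L => fun j => MvPolynomial.eval v (q j))^[n] v k)) =
      (pm F G (AlgebraicClosure ℚ))^[n] (fun k => algebraMap L (AlgebraicClosure ℚ) (v k)) := by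
  induction n with
  | zero => rfl
  | succ n ih =>
    rw [Function.iterate_succ_apply', Function.iterate_succ_apply', ← ih]
    exact pm_lift h0 h1 _

theorem dense2 (N : ℕ) (M : ℕ) (hM : 0 < M) (d : Fin N → ℕ)
    (F G : Fin N → MvPolynomial (Fin 2) (AlgebraicClosure ℚ)) (hd : ∀ i, 2 ≤ d i)
    (hhom : ∀ i, (F i).IsHomogeneous (d i) ∧ (G i).IsHomogeneous (d i))
    (h0 : ∀ i, ∀ v : Fin 2 → AlgebraicClosure ℚ,
          MvPolynomial.eval v (F i) = 0 → MvPolynomial.eval v (G i) = 0 → v = 0)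
    (C : Fin N → Dat) (hC : ∀ i, (C i).Ψ = (pm (F i) (G i) (AlgebraicClosure ℚ))^[M])
    (hdist : ∀ i j, ¬ (C i).sa → ¬ (C j).sa → i ≠ j → d i ≠ d j) :
    ∃ α : Fin N → Fin 2 → AlgebraicClosure ℚ, (∀ i, α i ≠ 0) ∧
      ∀ P : MvPolynomial (Fin N × Fin 2) (AlgebraicClosure ℚ),
        (∀ (n : ℕ) (t : Fin N → AlgebraicClosure ℚ), (∀ i, t i ≠ 0) →
          MvPolynomial.eval (fun q : Fin N × Fin 2 => t q.1 * ((C q.1).Ψ^[n] (α q.1)) q.2) P = 0) →
        P = 0 := by
  classical
  -- the number field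
  let ZL : Fin N → Finset (AlgebraicClosure ℚ) := fun i =>
    ((F i).support.image (F i).coeff ∪ (G i).support.image (G i).coeff) ∪
      (Finset.univ.image (C i).U ∪ Finset.univ.image (C i).W)
  obtain ⟨L, hL, hZL⟩ := exists_field (Finset.univ.biUnion ZL)
  have hZ : ∀ i, ∀ z ∈ ZL i, z ∈ L := fun i z hz =>
    hZL z (Finset.mem_biUnion.2 ⟨i, Finset.mem_univ _, hz⟩)
  have hq : ∀ i, ∃ q : Fin 2 → MvPolynomial (Fin 2) L,
      MvPolynomial.map (algebraMap L (AlgebraicClosure ℚ)) (q 0) = F i ∧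
      MvPolynomial.map (algebraMap L (AlgebraicClosure ℚ)) (q 1) = G i := by
    intro i
    obtain ⟨f, hf⟩ := lift_mv (L := L) (F i) fun m hm => hZ i _
      (Finset.mem_union_left _ (Finset.mem_union_left _ (Finset.mem_image_of_mem _ hm)))
    obtain ⟨g, hg⟩ := lift_mv (L := L) (G i) fun m hm => hZ i _
      (Finset.mem_union_left _ (Finset.mem_union_right _ (Finset.mem_image_of_mem _ hm)))
    exact ⟨![f, g], hf, hg⟩
  choose q hq0 hq1 using hq
  set ι : L →+* AlgebraicClosure ℚ := algebraMap L (AlgebraicClosure ℚ) with hι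
  have hιinj : Function.Injective ι := ι.injective
  let U' : Fin N → Fin 2 → L := fun i k => ⟨(C i).U k, hZ i _ (Finset.mem_union_right _
    (Finset.mem_union_left _ (Finset.mem_image_of_mem _ (Finset.mem_univ k))))⟩
  let W' : Fin N → Fin 2 → L := fun i k => ⟨(C i).W k, hZ i _ (Finset.mem_union_right _
    (Finset.mem_union_right _ (Finset.mem_image_of_mem _ (Finset.mem_univ k))))⟩
  have hU' : ∀ i, (fun k => ι (U' i k)) = (C i).U := fun i => rfl
  have hW' : ∀ i, (fun k => ι (W' i k)) = (C i).W := fun i => rfl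
  have hdet : ∀ i, U' i 0 * W' i 1 - U' i 1 * W' i 0 ≠ 0 := by
    intro i h
    apply (C i).hind
    have := congrArg ι h
    rw [map_sub, map_mul, map_mul, map_zero] at this
    exact this
  -- growth of heights
  have hgrow : ∀ i, ∃ B : ℝ, ∀ τ : L, B < logHeight₁ τ → ∀ (M : ℕ) (s r : ℕ → L),
      (∀ n, r n ≠ 0) →
      (∀ n, (fun v : Fin 2 → L => fun j => MvPolynomial.eval v (q i j))^[M * n] (U' i + τ • W' i) =
        r n • (U' i + s n • W' i)) → Gr ((d i : ℝ) ^ M) (fun n => logHeight₁ (s n)) := by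
    intro i
    refine growth (AlgebraicClosure ℚ) (hd i) (q i) ?_ ?_ (hdet i)
    · intro k
      fin_cases k
      · refine MvPolynomial.IsHomogeneous.of_map hιinj ?_
        show (MvPolynomial.map ι (q i 0)).IsHomogeneous (d i)
        rw [hq0]
        exact (hhom i).1
      · refine MvPolynomial.IsHomogeneous.of_map hιinj ?_
        show (MvPolynomial.map ι (q i 1)).IsHomogeneous (d i)
        rw [hq1]
        exact (hhom i).2
    · intro v hv
      refine h0 i v ?_ ?_
      · rw [← hq0 i, MvPolynomial.eval_map, ← MvPolynomial.aeval_def]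
        exact hv 0
      · rw [← hq1 i, MvPolynomial.eval_map, ← MvPolynomial.aeval_def]
        exact hv 1
  choose B hB using hgrow
  -- the places
  obtain ⟨p, hpinj, hpl⟩ := exists_places (Finset.univ.biUnion fun i => (C i).Z)
  choose hp σ hσ using hpl
  have hgood : ∀ i (j : Fin N), ∀ z ∈ (C j).Z, ∃ x : ℤ_[p i], σ i z = io (p i) x := by
    intro i j z hz
    exact hσ i z (Finset.mem_biUnion.2 ⟨j, Finset.mem_univ _, hz⟩)
  -- the starting points
  let Q : Fin N → ℕ := fun i => ∏ j ∈ Finset.univ.erase i, p (j : ℕ)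
  let P : ℕ := ∏ j : Fin N, p (j : ℕ)
  have hP0 : P ≠ 0 := Finset.prod_ne_zero_iff.2 fun j _ => (hp (j : ℕ)).out.ne_zero
  choose k hk using fun i => exists_large (L := L) hP0 (B i)
  let τL : Fin N → L := fun i =>
    if (C i).sa then (p (i : ℕ) : L) / ((Q i : ℕ) : L) else ((k i * P : ℕ) : L)
  let τ : Fin N → AlgebraicClosure ℚ := fun i => ι (τL i)
  have hτA : ∀ i, (C i).sa → τ i = (p (i : ℕ) : AlgebraicClosure ℚ) / (Q i : ℕ) := by
    intro i hi
    show ι (if (C i).sa then _ else _) = _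
    rw [if_pos hi, map_div₀, map_natCast, map_natCast]
  have hτLB : ∀ i, ¬ (C i).sa → τL i = ((k i * P : ℕ) : L) := fun i hi => if_neg hi
  have hτB : ∀ i, ¬ (C i).sa → τ i = ((k i * P : ℕ) : AlgebraicClosure ℚ) := by
    intro i hi
    show ι (τL i) = _
    rw [hτLB i hi, map_natCast]
  have hQ0 : ∀ i, (Q i : AlgebraicClosure ℚ) ≠ 0 := by
    intro i
    have : Q i ≠ 0 := Finset.prod_ne_zero_iff.2 fun j _ => (hp (j : ℕ)).out.ne_zero
    exact_mod_cast this
  have hp0 : ∀ i : ℕ, (p i : AlgebraicClosure ℚ) ≠ 0 := by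
    intro i
    exact_mod_cast (hp i).out.ne_zero
  -- units
  have hunit : ∀ (i : ℕ) (n : ℕ), ¬ p i ∣ n → IsUnit (n : ℤ_[p i]) := by
    intro i n hn
    rw [PadicInt.isUnit_iff]
    refine le_antisymm (PadicInt.norm_le_one _) (not_lt.1 fun hlt => hn ?_)
    have h1 : ‖((n : ℤ) : ℤ_[p i])‖ < 1 := by rwa [Int.cast_natCast]
    exact_mod_cast (PadicInt.norm_int_lt_one_iff_dvd _).1 h1
  have hlt : ∀ (i : ℕ) (n : ℕ), p i ∣ n → ‖(n : ℤ_[p i])‖ < 1 := by
    intro i n hn
    have := (PadicInt.norm_int_lt_one_iff_dvd (p := p i) (n : ℤ)).2 (by exact_mod_cast hn)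
    rwa [Int.cast_natCast] at this
  have hfrac : ∀ (i : ℕ) (n d : ℕ), p i ∣ n → ¬ p i ∣ d →
      ∃ x : ℤ_[p i], σ i ((n : AlgebraicClosure ℚ) / d) = io (p i) x ∧ ‖x‖ < 1 := by
    intro i n d hn hd
    have hu := hunit i d hd
    refine ⟨(n : ℤ_[p i]) * Ring.inverse (d : ℤ_[p i]), ?_, ?_⟩
    · have hd0 : σ i (d : AlgebraicClosure ℚ) ≠ 0 := by
        rw [_root_.map_ne_zero]
        intro h0
        apply hd
        have : d = 0 := by exact_mod_cast h0
        rw [this]
        exact dvd_zero _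
      rw [map_div₀, div_eq_iff hd0, map_natCast, map_natCast, ← map_natCast (io (p i)) d,
        ← map_mul, mul_assoc, Ring.inverse_mul_cancel _ hu, mul_one, map_natCast]
    · rw [norm_mul]
      exact (mul_le_of_le_one_right (norm_nonneg _) (PadicInt.norm_le_one _)).trans_lt (hlt i n hn)
  have hpij : ∀ i j : ℕ, i ≠ j → ¬ p i ∣ p j := by
    intro i j hij h
    exact hij (hpinj ((Nat.prime_dvd_prime_iff_eq (hp i).out (hp j).out).1 h))
  have hpQ : ∀ i : Fin N, ¬ p (i : ℕ) ∣ Q i := by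
    intro i h
    obtain ⟨j, hj, hd⟩ := ((hp (i : ℕ)).out.prime.dvd_finsetProd_iff _).1 h
    exact hpij i j (fun h => (Finset.ne_of_mem_erase hj) (Fin.ext h).symm) hd
  have hpQ' : ∀ i j : Fin N, i ≠ j → p (i : ℕ) ∣ Q j := by
    intro i j hij
    exact Finset.dvd_prod_of_mem _ (Finset.mem_erase.2 ⟨hij, Finset.mem_univ _⟩)
  have hpP : ∀ i : Fin N, p (i : ℕ) ∣ P := fun i =>
    Finset.dvd_prod_of_mem _ (Finset.mem_univ i)
  -- attraction
  have hatt : ∀ i : Fin N, (C i).sa → (∀ n, (C i).T (τ i) n ≠ 0) ∧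
      (∀ n, ∃ r : AlgebraicClosure ℚ, r ≠ 0 ∧
        (C i).Ψ^[n] ((C i).U + τ i • (C i).W) = r • ((C i).U + (C i).T (τ i) n • (C i).W)) ∧
      Tendsto (fun n => σ i ((C i).T (τ i) n)) atTop (𝓝 0) := by
    intro i hi
    obtain ⟨x, hx, hx1⟩ := hfrac i (p i) (Q i) (dvd_refl _) (hpQ i)
    rw [← hτA i hi] at hx
    refine (C i).att hi (p i) (σ i) (hgood i i) (τ i) ?_ x hx hx1
    rw [hτA i hi]
    exact div_ne_zero (hp0 _) (hQ0 i)
  have hBrec : ∀ i j : Fin N, ¬ (C j).sa →
      (∀ n, ∃ r : AlgebraicClosure ℚ, r ≠ 0 ∧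
        (C j).Ψ^[n] ((C j).U + τ j • (C j).W) = r • ((C j).U + (C j).T (τ j) n • (C j).W)) ∧
      ∃ u : ℕ → ℤ_[p i], (∀ n, σ i ((C j).T (τ j) n) = io (p i) (u n)) ∧
        ∀ n m, ‖u (n + 1) - u (m + 1)‖ = ‖u n - u m‖ := by
    intro i j hj
    refine (C j).recB hj (p i) (σ i) (hgood i j) (τ j) ((k j * P : ℕ) : ℤ_[p i]) ?_ ?_
    · rw [hτB j hj, map_natCast, map_natCast]
    · exact hlt i _ (Dvd.dvd.mul_left (hpP i) _)
  have horb : ∀ (i : Fin N) (n : ℕ), ∃ r : AlgebraicClosure ℚ, r ≠ 0 ∧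
      (C i).Ψ^[n] ((C i).U + τ i • (C i).W) = r • ((C i).U + (C i).T (τ i) n • (C i).W) := by
    intro i n
    by_cases hi : (C i).sa
    · exact (hatt i hi).2.1 n
    · exact (hBrec i i hi).1 n
  -- recurrence
  have hrec : ∀ i : Fin N, (C i).sa → ∃ M : ℕ → ℕ, Tendsto M atTop atTop ∧
      ∀ m (j : Fin N), i ≠ j →
      Tendsto (fun k => σ i ((C j).T (τ j) (m + M k))) atTop (𝓝 (σ i ((C j).T (τ j) m))) := by
    intro i hi
    have hj : ∀ j : Fin N, ∃ u : ℕ → ℤ_[p i],
        (i ≠ j → (C j).sa → ∀ n, σ i ((C j).T (τ j) n)⁻¹ = io (p i) (u n)) ∧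
        (¬ (C j).sa → ∀ n, σ i ((C j).T (τ j) n) = io (p i) (u n)) ∧
        ∀ n m, ‖u (n + 1) - u (m + 1)‖ = ‖u n - u m‖ := by
      intro j
      by_cases hij : i = j
      · refine ⟨fun _ => 0, fun h => absurd hij h, fun h => ?_, fun n m => rfl⟩
        exact absurd (hij ▸ hi) h
      · by_cases hj : (C j).sa
        · obtain ⟨x, hx, hx1⟩ := hfrac i (Q j) (p j) (hpQ' i j hij)
            (hpij i j fun h => hij (Fin.ext h))
          obtain ⟨u, hu1, hu2⟩ := (C j).recA hj (p i) (σ i) (hgood i j) (τ j) (hatt j hj).1 x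
            (by rw [← hx, hτA j hj, inv_div]) hx1
          exact ⟨u, fun _ _ => hu1, fun h => absurd hj h, hu2⟩
        · obtain ⟨-, u, hu1, hu2⟩ := hBrec i j hj
          exact ⟨u, fun _ h => absurd h hj, fun _ => hu1, hu2⟩
    choose u hu1 hu1' hu2 using hj
    obtain ⟨M, hM1, hM2⟩ := recurrent (X := Fin N → ℤ_[p i]) (fun n j => u j n) (by
      intro n m
      rw [dist_pi_def, dist_pi_def]
      congr 2
      funext j
      apply NNReal.eq
      rw [coe_nndist, coe_nndist, dist_eq_norm, dist_eq_norm]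
      exact hu2 j n m)
    refine ⟨M, hM1, fun m j hij => ?_⟩
    have h1 := (tendsto_pi_nhds.1 (hM2 m)) j
    have h2 : Tendsto (fun k => io (p i) (u j (m + M k))) atTop (𝓝 (io (p i) (u j m))) :=
      (io_cont.tendsto _).comp h1
    by_cases hj : (C j).sa
    · have h3 : io (p i) (u j m) ≠ 0 := by
        rw [← hu1 j hij hj m, _root_.map_ne_zero]
        exact inv_ne_zero ((hatt j hj).1 m)
      have h4 := h2.inv₀ h3
      refine (h4.congr fun k => ?_).trans ?_
      · rw [← hu1 j hij hj, ← map_inv₀, inv_inv]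
      · rw [← hu1 j hij hj, ← map_inv₀, inv_inv]
    · rw [hu1' j hj m]
      refine h2.congr fun k => ?_
      rw [hu1' j hj]
  -- the orbits over the number field
  have hs : ∀ (i : Fin N) (n : ℕ), ∃ r s : L, r ≠ 0 ∧
      (fun v : Fin 2 → L => fun j => MvPolynomial.eval v (q i j))^[M * n]
        (U' i + τL i • W' i) = r • (U' i + s • W' i) ∧ ι s = (C i).T (τ i) n := by
    intro i n
    obtain ⟨r, hr, h⟩ := horb i n
    refine descend_vec ι (hdet i) hr ?_
    rw [pm_lift_iter (hq0 i) (hq1 i), hU', hW', ← h, hC, Function.iterate_mul]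
    congr 1
  choose r s hr hs1 hs2 using hs
  -- density over the number field
  have hdens : ∀ R : MvPolynomial (Fin N) L,
      (∀ n, MvPolynomial.eval (fun i => s i n) R = 0) → R = 0 := by
    refine density3 N (fun n i => s i n) (fun i => (C i).sa) d ?_ ?_ hdist
    · intro i hi
      obtain ⟨M, hM1, hM2⟩ := hrec i hi
      refine ⟨PadicAlgCl (p i), inferInstance, (σ i).comp ι, M, fun n h => ?_, ?_, hM1,
        fun m j hij => ?_⟩
      · apply (hatt i hi).1 n
        rw [← hs2, h, map_zero]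
      · refine (hatt i hi).2.2.congr fun n => ?_
        rw [RingHom.comp_apply, hs2]
      · simp only [RingHom.comp_apply, hs2]
        exact hM2 m j hij
    · intro i hi S hS C₀ _
      have hGr : ∀ j, ¬ (C j).sa → Gr ((d j : ℝ) ^ M) (fun n => logHeight₁ (s j n)) := by
        intro j hj
        refine hB j (τL j) ?_ M (s j) (r j) (hr j) (hs1 j)
        rw [hτLB j hj]
        exact hk j
      have hd1 : (1 : ℝ) < (d i : ℝ) ^ M := by
        have h1 : (2 : ℝ) ≤ d i := by exact_mod_cast hd i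
        exact one_lt_pow₀ (by linarith) hM.ne'
      refine Gr.lt S _ (fun j => (d j : ℝ) ^ M) _ (fun j n => logHeight₁ (s j n)) hd1 ?_ (hGr i hi)
        (fun j hj => hGr j (hS j hj).1) (fun j _ n => zero_le_logHeight₁ _) C₀
      intro j hj
      refine ⟨by positivity, ?_⟩
      have h1 : (d j : ℝ) < d i := by exact_mod_cast (hS j hj).2
      exact pow_lt_pow_left₀ h1 (Nat.cast_nonneg _) hM.ne'
  -- conclusion
  refine ⟨fun i => (C i).U + τ i • (C i).W, fun i h => ?_, fun P hP => ?_⟩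
  · apply (C i).hind
    have e0 := congrFun h 0
    have e1 := congrFun h 1
    simp only [Pi.add_apply, Pi.smul_apply, smul_eq_mul, Pi.zero_apply] at e0 e1
    linear_combination (C i).W 1 * e0 - (C i).W 0 * e1
  · have : Infinite (AlgebraicClosure ℚ) := IsAlgClosed.instInfinite
    refine finish N (fun i => (C i).Ψ) (fun i => (C i).U) (fun i => (C i).W)
      (fun i => (C i).hind) _ (fun n i => (C i).T (τ i) n) horb ?_ P hP
    intro R hR
    refine descent (fun n i => s i n) hdens R fun n => ?_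
    rw [← hR n]
    congr 2
    funext i
    exact hs2 i n

end Pool.Agent.TH61.PCH
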