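import Mathlib

/-!
# Growth of heights along orbits
-/

set_option autoImplicit false

namespace Pool.Agent.TH61.PCH

open MvPolynomial Height Filter Topology

section certs

variable {L : Type} [Field L]

theorem comp_mul {m d : ℕ} (q p : MvPolynomial (Fin 2) L) (hp : p.IsHomogeneous d) :
    homogeneousComponent (m + d) (q * p) = homogeneousComponent m q * p := by
  classical
  conv_lhs => rw [← sum_homogeneousComponent q, Finset.sum_mul, map_sum]
  have h1 : ∀ k, homogeneousComponent (m + d) (homogeneousComponent k q * p) =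
      if k = m then homogeneousComponent k q * p else 0 := by
    intro k
    have h2 : (homogeneousComponent k q * p).IsHomogeneous (k + d) :=
      (homogeneousComponent_isHomogeneous k q).mul hp
    rw [homogeneousComponent_of_mem ((mem_homogeneousSubmodule _ _).2 h2)]
    by_cases h : k = m
    · rw [if_pos h, if_pos (by omega)]
    · rw [if_neg h, if_neg (by omega)]
  simp only [h1]
  rw [Finset.sum_ite_eq' _ m]
  by_cases h : m ∈ Finset.range (q.totalDegree + 1)
  · rw [if_pos h]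
  · rw [if_neg h]
    rw [Finset.mem_range, not_lt] at h
    rw [homogeneousComponent_eq_zero m q (by omega), zero_mul]

/-- certificates -/
theorem certs (K : Type) [Field K] [IsAlgClosed K] [Algebra L K] {d : ℕ}
    (p : Fin 2 → MvPolynomial (Fin 2) L) (hp : ∀ i, (p i).IsHomogeneous d)
    (h0 : ∀ v : Fin 2 → K, (∀ i, aeval v (p i) = 0) → v = 0) :
    ∃ (M : ℕ) (q : Fin 2 × Fin 2 → MvPolynomial (Fin 2) L), (∀ a, (q a).IsHomogeneous M) ∧
      ∀ k, ∑ j, q (k, j) * p j = X k ^ (M + d) := by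
  set I : Ideal (MvPolynomial (Fin 2) L) := Ideal.span (Set.range p) with hI
  have hX : ∀ k : Fin 2, ∃ n : ℕ, (X k : MvPolynomial (Fin 2) L) ^ n ∈ I := by
    intro k
    have h1 : (X k : MvPolynomial (Fin 2) L) ∈ I.radical := by
      rw [← vanishingIdeal_zeroLocus_eq_radical (K := K) I, mem_vanishingIdeal_iff]
      intro x hx
      have h2 : x = 0 := h0 x fun i => (mem_zeroLocus_iff.1 hx) (p i) (Ideal.subset_span ⟨i, rfl⟩)
      rw [h2, aeval_X]
      rfl
    exact h1
  choose e he using hX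
  have hE : ∀ k, (X k : MvPolynomial (Fin 2) L) ^ (e 0 + e 1 + d) ∈ I := by
    intro k
    refine Ideal.pow_mem_of_pow_mem I (he k) ?_
    fin_cases k
    · show e 0 ≤ _
      omega
    · show e 1 ≤ _
      omega
  have hq : ∀ k, ∃ q : Fin 2 → MvPolynomial (Fin 2) L,
      ∑ j, q j * p j = X k ^ (e 0 + e 1 + d) := by
    intro k
    obtain ⟨c, hc⟩ := (Ideal.mem_span_range_iff_exists_fun).1 (hE k)
    exact ⟨c, hc⟩
  choose q hq using hq
  refine ⟨e 0 + e 1, fun a => homogeneousComponent (e 0 + e 1) (q a.1 a.2),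
    fun a => homogeneousComponent_isHomogeneous _ _, fun k => ?_⟩
  have h1 := congrArg (homogeneousComponent (e 0 + e 1 + d)) (hq k)
  rw [map_sum] at h1
  simp only [comp_mul _ _ (hp _)] at h1
  rw [h1, homogeneousComponent_of_mem ((mem_homogeneousSubmodule _ _).2
    (isHomogeneous_X_pow (R := L) k (e 0 + e 1 + d))), if_pos rfl]

end certs

section real

/-- growth like `D ^ n` -/
def Gr (D : ℝ) (h : ℕ → ℝ) : Prop :=
  ∃ c : ℝ, 0 < c ∧ ∃ C : ℝ, 0 ≤ C ∧ ∀ n, c * D ^ n ≤ h n + C ∧ h n ≤ C * D ^ n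

theorem gr_of_step {D : ℝ} (hD : 2 ≤ D) {h : ℕ → ℝ} {C : ℝ} (hC : 0 ≤ C)
    (hs : ∀ n, |h (n + 1) - D * h n| ≤ C) (h0 : C < h 0) : Gr D h := by
  refine ⟨h 0 - C, by linarith, h 0 + C, by linarith, fun n => ⟨?_, ?_⟩⟩
  · have : (h 0 - C) * D ^ n ≤ h n - C := by
      induction n with
      | zero => simp
      | succ n ih =>
        have h1 := (abs_le.1 (hs n)).1
        have h2 : D * ((h 0 - C) * D ^ n) ≤ D * (h n - C) :=
          mul_le_mul_of_nonneg_left ih (by linarith)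
        have h3 : 2 * C ≤ D * C := mul_le_mul_of_nonneg_right hD hC
        rw [pow_succ]
        nlinarith
    linarith
  · have : h n + C ≤ (h 0 + C) * D ^ n := by
      induction n with
      | zero => simp
      | succ n ih =>
        have h1 := (abs_le.1 (hs n)).2
        have h2 : D * (h n + C) ≤ D * ((h 0 + C) * D ^ n) :=
          mul_le_mul_of_nonneg_left ih (by linarith)
        have h3 : 2 * C ≤ D * C := mul_le_mul_of_nonneg_right hD hC
        rw [pow_succ]
        nlinarith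
    linarith

theorem Gr.sub {D : ℝ} {h : ℕ → ℝ} (hg : Gr D h) (M : ℕ) : Gr (D ^ M) (fun n => h (M * n)) := by
  obtain ⟨c, hc, C, hC, h1⟩ := hg
  refine ⟨c, hc, C, hC, fun n => ?_⟩
  rw [← pow_mul]
  exact h1 _

theorem Gr.pert {D : ℝ} (hD : 1 ≤ D) {h h' : ℕ → ℝ} (hg : Gr D h) {B : ℝ} (hB : 0 ≤ B)
    (hh : ∀ n, |h' n - h n| ≤ B) : Gr D h' := by
  obtain ⟨c, hc, C, hC, h1⟩ := hg
  refine ⟨c, hc, C + B, by positivity, fun n => ?_⟩
  have h2 := abs_le.1 (hh n)
  have h3 := h1 n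
  have h4 : 1 ≤ D ^ n := one_le_pow₀ hD
  constructor
  · linarith [h2.1, h3.1]
  · nlinarith [h2.2, h3.2]

theorem Gr.lt {ι : Type} (s : Finset ι) (D : ℝ) (Dj : ι → ℝ) (h : ℕ → ℝ) (hj : ι → ℕ → ℝ)
    (hD : 1 < D) (hDj : ∀ j ∈ s, 0 ≤ Dj j ∧ Dj j < D) (hg : Gr D h)
    (hgj : ∀ j ∈ s, Gr (Dj j) (hj j)) (h0 : ∀ j ∈ s, ∀ n, 0 ≤ hj j n) (B : ℝ) :
    ∀ᶠ n in atTop, B * (1 + ∑ j ∈ s, hj j n) < h n := by
  obtain ⟨c, hc, C, hC, h1⟩ := hg
  have hD0 : 0 < D := by linarith
  have t0 : Tendsto (fun n : ℕ => (1 / D) ^ n) atTop (𝓝 0) :=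
    tendsto_pow_atTop_nhds_zero_of_lt_one (by positivity) (by rw [div_lt_one hD0]; exact hD)
  have t1 : ∀ j ∈ s, Tendsto (fun n => hj j n / D ^ n) atTop (𝓝 0) := by
    intro j hjs
    obtain ⟨c', hc', C', hC', h1'⟩ := hgj j hjs
    have t2 : Tendsto (fun n : ℕ => C' * (Dj j / D) ^ n) atTop (𝓝 (C' * 0)) := by
      apply Tendsto.const_mul
      apply tendsto_pow_atTop_nhds_zero_of_lt_one
      · exact div_nonneg (hDj j hjs).1 hD0.le
      · rw [div_lt_one hD0]
        exact (hDj j hjs).2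
    rw [mul_zero] at t2
    refine squeeze_zero (fun n => div_nonneg (h0 j hjs n) (by positivity)) (fun n => ?_) t2
    rw [div_pow, ← mul_div_assoc]
    gcongr
    exact (h1' n).2
  have t3 : Tendsto (fun n : ℕ => B * ((1 / D) ^ n + ∑ j ∈ s, hj j n / D ^ n) + C * (1 / D) ^ n)
      atTop (𝓝 (B * (0 + ∑ _j ∈ s, 0) + C * 0)) :=
    ((t0.add (tendsto_finsetSum s fun j hjs => t1 j hjs)).const_mul B).add (t0.const_mul C)
  rw [Finset.sum_const_zero, add_zero, mul_zero, mul_zero, add_zero] at t3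
  filter_upwards [(t3.eventually_lt_const hc)] with n hn
  have hp : 0 < D ^ n := by positivity
  have e1 : B * ((1 / D) ^ n + ∑ j ∈ s, hj j n / D ^ n) + C * (1 / D) ^ n =
      (B * (1 + ∑ j ∈ s, hj j n) + C) / D ^ n := by
    rw [← Finset.sum_div, one_div, inv_pow]
    field_simp
  rw [e1, div_lt_iff₀ hp] at hn
  linarith [(h1 n).1]

end real

section height

variable {L : Type} [Field L] [AdmissibleAbsValues L]

theorem step_bound {d M : ℕ} {p : Fin 2 → MvPolynomial (Fin 2) L}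
    (hp : ∀ i, (p i).IsHomogeneous d) {q : Fin 2 × Fin 2 → MvPolynomial (Fin 2) L}
    (hq : ∀ a, (q a).IsHomogeneous M) (hqp : ∀ k, ∑ j, q (k, j) * p j = X k ^ (M + d)) :
    ∃ C : ℝ, 0 ≤ C ∧ ∀ v : Fin 2 → L,
      |logHeight (fun j => eval v (p j)) - d * logHeight v| ≤ C := by
  obtain ⟨C₁, h₁⟩ := logHeight_eval_le' (K := L) hp
  obtain ⟨C₂, h₂⟩ := logHeight_eval_ge' (K := L) (N := d) hq
  refine ⟨|C₁| + |C₂|, by positivity, fun v => ?_⟩
  have h3 := h₁ v
  have h4 := h₂ p (x := v) (by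
    intro k
    have := congrArg (eval v) (hqp k)
    rw [map_sum, map_pow, eval_X] at this
    simpa only [map_mul] using this)
  rw [abs_le]
  constructor
  · linarith [neg_abs_le C₂, abs_nonneg C₁]
  · linarith [le_abs_self C₁, abs_nonneg C₂]

theorem line_bound {u w : Fin 2 → L} (hdet : u 0 * w 1 - u 1 * w 0 ≠ 0) :
    ∃ C : ℝ, 0 ≤ C ∧ ∀ s : L, |logHeight₁ s - logHeight (u + s • w)| ≤ C := by
  let A : Fin 2 × Fin 2 → L := fun a => if a.2 = 0 then w a.1 else u a.1
  let B : Fin 2 × Fin 2 → L := fun a =>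
    if a.1 = 0 then (if a.2 = 0 then -u 1 else u 0) else (if a.2 = 0 then w 1 else -w 0)
  set c₀ : ℝ := totalWeight L * Real.log (Nat.card (Fin 2)) with hc₀
  refine ⟨|c₀ + logHeight A| + |c₀ + logHeight B|, by positivity, fun s => ?_⟩
  have h1 := logHeight_linearMap_apply_le (K := L) A ![s, 1]
  have e1 : (fun j => ∑ i, A (j, i) * (![s, 1] : Fin 2 → L) i) = u + s • w := by
    funext j
    rw [Fin.sum_univ_two]
    simp only [A, Pi.add_apply, Pi.smul_apply, smul_eq_mul]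
    simp
    ring
  rw [e1, ← logHeight₁_eq_logHeight] at h1
  have h2 := logHeight_linearMap_apply_le (K := L) B (u + s • w)
  have e2 : (fun j => ∑ i, B (j, i) * (u + s • w) i) =
      (u 0 * w 1 - u 1 * w 0) • (![s, 1] : Fin 2 → L) := by
    funext j
    rw [Fin.sum_univ_two]
    fin_cases j
    · simp only [B, Pi.add_apply, Pi.smul_apply, smul_eq_mul]
      simp
      ring
    · simp only [B, Pi.add_apply, Pi.smul_apply, smul_eq_mul]
      simp
      ring
  rw [e2, logHeight_smul_eq_logHeight _ hdet, ← logHeight₁_eq_logHeight] at h2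
  rw [abs_le]
  constructor
  · linarith [le_abs_self (c₀ + logHeight A), abs_nonneg (c₀ + logHeight B)]
  · linarith [le_abs_self (c₀ + logHeight B), abs_nonneg (c₀ + logHeight A)]

theorem growth (K : Type) [Field K] [IsAlgClosed K] [Algebra L K] {d : ℕ} (hd : 2 ≤ d)
    (p : Fin 2 → MvPolynomial (Fin 2) L) (hp : ∀ i, (p i).IsHomogeneous d)
    (h0 : ∀ v : Fin 2 → K, (∀ i, aeval v (p i) = 0) → v = 0)
    {u w : Fin 2 → L} (hdet : u 0 * w 1 - u 1 * w 0 ≠ 0) :
    ∃ B : ℝ, ∀ τ : L, B < logHeight₁ τ → ∀ (M : ℕ) (s r : ℕ → L), (∀ n, r n ≠ 0) →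
      (∀ n, (fun v : Fin 2 → L => fun j => eval v (p j))^[M * n] (u + τ • w) =
        r n • (u + s n • w)) → Gr ((d : ℝ) ^ M) (fun n => logHeight₁ (s n)) := by
  obtain ⟨M', q, hq, hqp⟩ := certs K p hp h0
  obtain ⟨C, hC, hst⟩ := step_bound hp hq hqp
  obtain ⟨C', hC', hli⟩ := line_bound hdet
  refine ⟨C + C', fun τ hτ M s r hr hs => ?_⟩
  have hd' : (2 : ℝ) ≤ d := by exact_mod_cast hd
  set Φ : (Fin 2 → L) → (Fin 2 → L) := fun v => fun j => eval v (p j) with hΦ
  have g1 : Gr (d : ℝ) (fun n => logHeight (Φ^[n] (u + τ • w))) := by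
    refine gr_of_step hd' hC (fun n => ?_) ?_
    · rw [Function.iterate_succ_apply']
      exact hst _
    · have := (abs_le.1 (hli τ)).2
      show C < logHeight (u + τ • w)
      linarith
  have g2 := g1.sub M
  refine g2.pert (one_le_pow₀ (by linarith)) hC' (fun n => ?_)
  rw [hs n, logHeight_smul_eq_logHeight _ (hr n)]
  exact hli _

end height

end Pool.Agent.TH61.PCH
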