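import Mathlib

/-!
# Heights of roots of polynomials with polynomial coefficients
-/

set_option autoImplicit false

namespace Pool.Agent.TH61.PCH

open MvPolynomial Height

variable {L : Type} [Field L]

/-- homogenization -/
noncomputable def hz {m : ℕ} (e : ℕ) (p : MvPolynomial (Fin m) L) :
    MvPolynomial (Fin (m + 1)) L :=
  ∑ k ∈ Finset.range (e + 1), X 0 ^ (e - k) * rename Fin.succ (homogeneousComponent k p)

theorem hz_hom {m : ℕ} (e : ℕ) (p : MvPolynomial (Fin m) L) : (hz e p).IsHomogeneous e := by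
  apply IsHomogeneous.sum
  intro k hk
  have h1 : (e - k) + k = e := by
    have := Finset.mem_range.1 hk
    omega
  have h2 := (isHomogeneous_X_pow (R := L) (0 : Fin (m + 1)) (e - k)).mul
    ((homogeneousComponent_isHomogeneous k p).rename_isHomogeneous (f := Fin.succ))
  rwa [h1] at h2

theorem hz_eval {m e : ℕ} {p : MvPolynomial (Fin m) L} (he : p.totalDegree ≤ e) (w : Fin m → L) :
    eval (Fin.cons 1 w : Fin (m + 1) → L) (hz e p) = eval w p := by
  have h1 : ∀ k, eval (Fin.cons 1 w : Fin (m + 1) → L)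
      (X 0 ^ (e - k) * rename Fin.succ (homogeneousComponent k p)) =
      eval w (homogeneousComponent k p) := by
    intro k
    rw [map_mul, map_pow, eval_X, Fin.cons_zero, one_pow, one_mul, eval_rename]
    rfl
  unfold hz
  rw [map_sum]
  simp only [h1]
  conv_rhs => rw [← sum_homogeneousComponent p, map_sum]
  symm
  apply Finset.sum_subset
  · intro k hk
    rw [Finset.mem_range] at hk ⊢
    omega
  · intro k _ hk
    rw [Finset.mem_range, not_lt] at hk
    rw [homogeneousComponent_eq_zero k p (by omega), map_zero]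

variable [AdmissibleAbsValues L]

/-- the height of a tuple is at most the product of the heights of its entries -/
theorem cons_le {m : ℕ} (w : Fin m → L) :
    mulHeight (Fin.cons 1 w : Fin (m + 1) → L) ≤ ∏ j, mulHeight₁ (w j) := by
  classical
  have h1 := mulHeight_fun_prod_eq (K := L) (α := Fin m) (ι := fun _ => Fin 2)
    (x := fun j => ![w j, 1]) (by
      intro j h
      have := congrFun h 1
      simp at this)
  have h2 : ∀ j, mulHeight ![w j, 1] = mulHeight₁ (w j) := fun j => (mulHeight₁_eq_mulHeight _).symm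
  simp only [h2] at h1
  rw [← h1]
  let f : Fin (m + 1) → (Fin m → Fin 2) := Fin.cons (fun _ => 1) (fun j => Function.update (fun _ => 1) j 0)
  have h3 : (Fin.cons 1 w : Fin (m + 1) → L) =
      (fun I : Fin m → Fin 2 => ∏ a, (![w a, 1] : Fin 2 → L) (I a)) ∘ f := by
    funext i
    refine Fin.cases ?_ (fun j => ?_) i
    · simp [f]
    · simp only [Fin.cons_succ, Function.comp_apply, f]
      rw [Finset.prod_eq_single j]
      · simp
      · intro b _ hb
        simp [Function.update_of_ne hb]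
      · intro h; exact absurd (Finset.mem_univ _) h
  rw [h3]
  exact mulHeight_comp_le f _

/-- the root bound -/
theorem root_bound {m : ℕ} (Q : Polynomial (MvPolynomial (Fin m) L)) :
    ∃ C : ℝ, 0 ≤ C ∧ ∀ (w : Fin m → L) (t : L), (Q.map (eval w)).eval t = 0 →
      eval w Q.leadingCoeff ≠ 0 → logHeight₁ t ≤ C * (1 + ∑ j, logHeight₁ (w j)) := by
  classical
  rcases Nat.eq_zero_or_pos Q.natDegree with h0 | hpos
  · refine ⟨0, le_rfl, fun w t h1 h2 => ?_⟩
    exfalso
    apply h2
    rw [Polynomial.eq_C_of_natDegree_eq_zero h0] at h1 ⊢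
    rw [Polynomial.map_C, Polynomial.eval_C] at h1
    rw [Polynomial.leadingCoeff_C]
    exact h1
  obtain ⟨r, hr⟩ : ∃ r, Q.natDegree = r + 1 := ⟨Q.natDegree - 1, by omega⟩
  -- the matrix
  let E : Fin (r + 2) × Fin (r + 1) → MvPolynomial (Fin m) L := fun a =>
    if (a.1 : ℕ) < r + 1 then (if (a.1 : ℕ) = a.2 then Q.coeff (r + 1) else 0)
    else -(Q.coeff a.2)
  let e : ℕ := ∑ a, (E a).totalDegree
  have hE : ∀ a, (E a).totalDegree ≤ e := fun a =>
    Finset.single_le_sum (f := fun a => (E a).totalDegree) (fun _ _ => Nat.zero_le _)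
      (Finset.mem_univ a)
  obtain ⟨C₁, hC₁, h₁⟩ := mulHeight_eval_le' (K := L) (p := fun a => hz e (E a))
    (fun a => hz_hom e (E a))
  obtain ⟨C₂, hC₂, h₂⟩ := mulHeight_eval_le' (K := L) (N := r)
    (p := fun i : Fin (r + 1) => (X 0 ^ (i : ℕ) * X 1 ^ (r - i) : MvPolynomial (Fin 2) L)) (by
      intro i
      have h1 : (i : ℕ) + (r - i) = r := by omega
      have h2 := (isHomogeneous_X_pow (R := L) (0 : Fin 2) (i : ℕ)).mul
        (isHomogeneous_X_pow (R := L) (1 : Fin 2) (r - i))
      rwa [h1] at h2)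
  set C₀ : ℝ := (Nat.card (Fin (r + 1)) : ℝ) ^ totalWeight L with hC₀
  have hC₀' : 1 ≤ C₀ := by
    rw [hC₀]
    apply one_le_pow₀
    rw [Nat.card_fin]
    push_cast
    linarith [Nat.cast_nonneg (α := ℝ) r]
  refine ⟨|Real.log (C₀ * C₁ * C₂)| + e, by positivity, fun w t h1 h2 => ?_⟩
  set A : Fin (r + 2) × Fin (r + 1) → L := fun a => eval w (E a) with hA
  set x : Fin (r + 1) → L := fun i => t ^ (i : ℕ) with hx
  set b : L := eval w (Q.coeff (r + 1)) with hb
  have hb0 : b ≠ 0 := by
    rw [Polynomial.leadingCoeff, hr] at h2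
    exact h2
  have hAx : (fun j : Fin (r + 2) => ∑ i, A (j, i) * x i) = b • (fun j : Fin (r + 2) => t ^ (j : ℕ)) := by
    funext j
    rw [Pi.smul_apply, smul_eq_mul]
    by_cases hj : (j : ℕ) < r + 1
    · rw [Finset.sum_eq_single ⟨(j : ℕ), hj⟩]
      · have e1 : E (j, ⟨(j : ℕ), hj⟩) = Q.coeff (r + 1) := by
          show (if (j : ℕ) < r + 1 then (if (j : ℕ) = (j : ℕ) then Q.coeff (r + 1) else 0)
            else -(Q.coeff (j : ℕ))) = _
          rw [if_pos hj, if_pos rfl]
        show eval w (E (j, ⟨(j : ℕ), hj⟩)) * t ^ (j : ℕ) = _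
        rw [e1]
      · intro i _ hi
        have h5 : ¬ (j : ℕ) = (i : ℕ) := fun h => hi (Fin.ext h.symm)
        have e1 : E (j, i) = 0 := by
          show (if (j : ℕ) < r + 1 then (if (j : ℕ) = (i : ℕ) then Q.coeff (r + 1) else 0)
            else -(Q.coeff (i : ℕ))) = _
          rw [if_pos hj, if_neg h5]
        show eval w (E (j, i)) * _ = _
        rw [e1, map_zero, zero_mul]
      · intro h; exact absurd (Finset.mem_univ _) h
    · have hj' : (j : ℕ) = r + 1 := by omega
      have h3 : (Q.map (eval w)).eval t = ∑ i ∈ Finset.range (r + 2), eval w (Q.coeff i) * t ^ i := by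
        rw [Polynomial.eval_eq_sum_range' (n := r + 2)]
        · simp only [Polynomial.coeff_map]
        · refine lt_of_le_of_lt Polynomial.natDegree_map_le ?_
          omega
      rw [h3, Finset.sum_range_succ] at h1
      have h4 : ∑ i, A (j, i) * x i = -∑ i ∈ Finset.range (r + 1), eval w (Q.coeff i) * t ^ i := by
        rw [← Fin.sum_univ_eq_sum_range (fun i => eval w (Q.coeff i) * t ^ i), ← Finset.sum_neg_distrib]
        refine Finset.sum_congr rfl fun i _ => ?_
        have e1 : E (j, i) = -(Q.coeff (i : ℕ)) := by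
          show (if (j : ℕ) < r + 1 then (if (j : ℕ) = (i : ℕ) then Q.coeff (r + 1) else 0)
            else -(Q.coeff (i : ℕ))) = _
          rw [if_neg hj]
        show eval w (E (j, i)) * t ^ (i : ℕ) = _
        rw [e1, map_neg, neg_mul]
      rw [h4, hj']
      linear_combination -h1
  have hlin := mulHeight_linearMap_apply_le (K := L) A x
  rw [hAx, mulHeight_smul_eq_mulHeight _ hb0] at hlin
  -- lower bound
  have hlow : mulHeight₁ t ^ (r + 1) ≤ mulHeight (fun j : Fin (r + 2) => t ^ (j : ℕ)) := by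
    rw [← mulHeight₁_pow, mulHeight₁_eq_mulHeight]
    have h5 : ![t ^ (r + 1), 1] = (fun j : Fin (r + 2) => t ^ (j : ℕ)) ∘
        (![Fin.last (r + 1), 0] : Fin 2 → Fin (r + 2)) := by
      funext k
      fin_cases k <;> simp
    rw [h5]
    exact mulHeight_comp_le _ _
  have hup : mulHeight x ≤ C₂ * mulHeight₁ t ^ r := by
    have h6 := h₂ ![t, 1]
    rw [← mulHeight₁_eq_mulHeight] at h6
    convert h6 using 2
    funext i
    simp [hx]
  have hAup : mulHeight A ≤ C₁ * (∏ j, mulHeight₁ (w j)) ^ e := by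
    have h7 := h₁ (Fin.cons 1 w)
    have h8 : (fun a => eval (Fin.cons 1 w : Fin (m + 1) → L) (hz e (E a))) = A := by
      funext a
      rw [hz_eval (hE a)]
    rw [h8] at h7
    refine h7.trans ?_
    gcongr
    exact cons_le w
  have ht0 := mulHeight₁_pos t
  have hP0 : 0 < ∏ j, mulHeight₁ (w j) := Finset.prod_pos fun j _ => mulHeight₁_pos _
  have hmain : mulHeight₁ t ≤ C₀ * C₁ * C₂ * (∏ j, mulHeight₁ (w j)) ^ e := by
    have h9 : mulHeight₁ t ^ r * mulHeight₁ t ≤
        mulHeight₁ t ^ r * (C₀ * C₁ * C₂ * (∏ j, mulHeight₁ (w j)) ^ e) := by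
      calc mulHeight₁ t ^ r * mulHeight₁ t = mulHeight₁ t ^ (r + 1) := (pow_succ _ _).symm
        _ ≤ C₀ * mulHeight A * mulHeight x := hlow.trans hlin
        _ ≤ C₀ * (C₁ * (∏ j, mulHeight₁ (w j)) ^ e) * (C₂ * mulHeight₁ t ^ r) := by
            gcongr
        _ = _ := by ring
    exact le_of_mul_le_mul_left h9 (by positivity)
  have hlog := Real.log_le_log ht0 hmain
  rw [Real.log_mul (by positivity) (by positivity), Real.log_pow, Real.log_prod
    (fun j _ => (mulHeight₁_pos _).ne')] at hlog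
  have hsum : 0 ≤ ∑ j, logHeight₁ (w j) := Finset.sum_nonneg fun j _ => zero_le_logHeight₁ _
  calc logHeight₁ t = Real.log (mulHeight₁ t) := rfl
    _ ≤ Real.log (C₀ * C₁ * C₂) + e * ∑ j, logHeight₁ (w j) := hlog
    _ ≤ |Real.log (C₀ * C₁ * C₂)| + e * ∑ j, logHeight₁ (w j) := by
        gcongr
        exact le_abs_self _
    _ ≤ (|Real.log (C₀ * C₁ * C₂)| + e) * (1 + ∑ j, logHeight₁ (w j)) := by
        have h1 : 0 ≤ |Real.log (C₀ * C₁ * C₂)| * ∑ j, logHeight₁ (w j) := by positivity
        have h2 : (0 : ℝ) ≤ e := Nat.cast_nonneg _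
        nlinarith

end Pool.Agent.TH61.PCH
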